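import Pool.Agent.Results.MP_5c431f_gt.IsiwataCounterexample

/-!
# No quasi-perfect map onto a Hausdorff space of countable pseudocharacter

Stronger form of `IsiwataCounterexample` (Isiwata's question, MP_5c431f_gt).  The locally compact
Hausdorff space `Y`, a perfect at most two-to-one image of the product `D × K` of a separable
locally compact Moore space `D` with a compact Hausdorff space `K`, has the following property:
every *continuous* map from `Y` to a Hausdorff space all of whose points are `G_δ` has a fibre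
which contains an infinite closed discrete subset of `Y`.
-/

open Set Topology Filter

namespace Pool.Agent.Results.MP_5c431f_gt.CountablePseudocharacter

open IsiwataCounterexample

/-- A continuous map from a Cantor cube to a space in which `H k` is a `G_δ` point is constant on
the points which agree with `k` on a suitable countable set of coordinates. -/
theorem local_dep {J E : Type*} [TopologicalSpace E] (H : (J → Bool) → E) (hH : Continuous H)
    (k : J → Bool) (hE : IsGδ ({H k} : Set E)) :
    ∃ C : Set J, C.Countable ∧ ∀ k' : J → Bool, (∀ j ∈ C, k' j = k j) → H k' = H k := by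
  obtain ⟨O, hO, hOeq⟩ := isGδ_iff_eq_iInter_nat.1 hE
  have hmem : ∀ n, H k ∈ O n := fun n => by
    have : H k ∈ ⋂ n, O n := by rw [← hOeq]; rfl
    exact mem_iInter.1 this n
  have h1 : ∀ n, ∃ F : Finset J, ∀ k' : J → Bool, (∀ j ∈ F, k' j = k j) → H k' ∈ O n := by
    intro n
    have hopen : IsOpen (H ⁻¹' O n) := (hO n).preimage hH
    obtain ⟨F, u, hu, hsub⟩ := isOpen_pi_iff.1 hopen k (hmem n)
    refine ⟨F, fun k' hk' => ?_⟩
    apply hsub
    intro j hj
    rw [hk' j hj]
    exact (hu j hj).2
  choose F hF using h1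
  refine ⟨⋃ n, (F n : Set J), countable_iUnion fun n => (F n).countable_toSet, fun k' hk' => ?_⟩
  have : H k' ∈ ⋂ n, O n :=
    mem_iInter.2 fun n => hF n k' fun j hj => hk' j (mem_iUnion.2 ⟨n, hj⟩)
  rw [← hOeq] at this
  exact this

/-- `h` has a fibre which contains an infinite closed discrete set (an infinite set all of whose
subsets are closed in the whole space). -/
def HasBadFibre {Y E : Type*} [TopologicalSpace Y] (h : Y → E) : Prop :=
  ∃ e : E, ∃ A : Set Y, A ⊆ h ⁻¹' {e} ∧ A.Infinite ∧ ∀ B : Set Y, B ⊆ A → IsClosed B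

theorem HasBadFibre.not_perfect {Y E : Type*} [TopologicalSpace Y] [TopologicalSpace E]
    {h : Y → E} (hb : HasBadFibre h) : ¬ Perfect h := by
  rintro ⟨-, -, -, hk⟩
  obtain ⟨e, A, hA, hinf, hcl⟩ := hb
  have hAc : IsCompact A := (hk e).of_isClosed_subset (hcl A subset_rfl) hA
  have hd : DiscreteTopology A := by
    rw [discreteTopology_iff_forall_isClosed]
    intro s
    have h1 : IsClosed (Subtype.val '' s : Set Y) := hcl _ (by rintro _ ⟨x, -, rfl⟩; exact x.2)
    have h2 := h1.preimage (continuous_subtype_val (p := fun y => y ∈ A))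
    rwa [preimage_image_eq _ Subtype.val_injective] at h2
  exact hinf (hAc.finite ⟨hd⟩)

theorem bad {E : Type*} [TopologicalSpace E] [T2Space E] (hE : ∀ e : E, IsGδ ({e} : Set E))
    (h : YY → E) (hc : Continuous h) : HasBadFibre h := by
  have hH : Continuous (h ∘ ff) := hc.comp perfect_ff.1
  have h1 : ∀ q : ℕ × List Bool, ∃ C : Set (ℕ → Bool), C.Countable ∧ ∀ k : K,
      (∀ j ∈ C, k j = k0 j) → (h ∘ ff) ((q.1, Psi.pt q.2), k) = (h ∘ ff) ((q.1, Psi.pt q.2), k0) :=
    fun q => local_dep (fun k : K => (h ∘ ff) ((q.1, Psi.pt q.2), k))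
      (hH.comp (continuous_const.prodMk continuous_id)) k0 (hE _)
  choose C hC hC' using h1
  have hcount : (⋃ q, C q).Countable := countable_iUnion hC
  obtain ⟨j, hj⟩ : ∃ j, j ∉ ⋃ q, C q := by
    by_contra hcon
    have h0 : (univ : Set (ℕ → Bool)).Countable :=
      hcount.mono fun j _ => by_contra fun hj => hcon ⟨j, hj⟩
    rw [countable_univ_iff] at h0
    obtain ⟨f, hf⟩ := exists_surjective_nat (ℕ → Bool)
    obtain ⟨n, hn⟩ := hf (fun n => !(f n n))
    have h00 := congrFun hn n
    simp at h00
  have h2 : ∀ i s, (h ∘ ff) ((i, Psi.pt s), ek j) = (h ∘ ff) ((i, Psi.pt s), k0) := by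
    intro i s
    refine hC' (i, s) _ fun j' hj' => ?_
    have : j' ≠ j := by
      rintro rfl
      exact hj (mem_iUnion.2 ⟨_, hj'⟩)
    simp [k0, ek, this]
  have h3 : ∀ i, (h ∘ ff) ((i, Psi.br j), k0) = (h ∘ ff) ((i, Psi.br j), ek j) := by
    intro i
    have e1 := (hH.tendsto ((i, Psi.br j), k0)).comp (tendsto_X i j k0)
    have e2 := (hH.tendsto ((i, Psi.br j), ek j)).comp (tendsto_X i j (ek j))
    refine tendsto_nhds_unique e1 (e2.congr fun n => ?_)
    exact h2 i _
  have h4 : ∀ i, (h ∘ ff) ((i, Psi.br j), k0) = (h ∘ ff) ((0, Psi.br j), k0) := by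
    intro i
    induction i with
    | zero => rfl
    | succ i ih =>
      rw [← ih, h3 i]
      have : ff ((i + 1, Psi.br j), k0) = ff ((i, Psi.br j), ek j) := by
        rw [ff_eq, rho_succ, rho_ek]
      simp only [Function.comp_apply, this]
  refine ⟨(h ∘ ff) ((0, Psi.br j), k0), range fun i : ℕ => ff ((i, Psi.br j), k0), ?_, ?_, ?_⟩
  · rintro _ ⟨i, rfl⟩
    exact h4 i
  · refine infinite_range_of_injective fun a b hab => ?_
    have hab' : rho ((a, Psi.br j), k0) = rho ((b, Psi.br j), k0) := ff_eq.1 hab
    rcases rho_eq hab' with h5 | -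
    · simpa using h5
    · rcases a with _ | a <;> rcases b with _ | b
      · rfl
      · exfalso
        rw [rho_succ] at hab'
        have h6 : rho ((0, Psi.br j), k0) = ((0, Psi.br j), k0) := rfl
        rw [h6, Prod.mk.injEq] at hab'
        exact ek_ne j hab'.2.symm
      · exfalso
        rw [rho_succ] at hab'
        have h6 : rho ((0, Psi.br j), k0) = ((0, Psi.br j), k0) := rfl
        rw [h6, Prod.mk.injEq] at hab'
        exact ek_ne j hab'.2
      · rw [rho_succ, rho_succ] at hab'
        simp only [Prod.mk.injEq] at hab'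
        rw [hab'.1.1]
  · intro B hB
    have : B = ff '' {x | x ∈ SS ∧ ff x ∈ B} := by
      ext y
      constructor
      · intro hy
        obtain ⟨i, hi⟩ := hB hy
        exact ⟨((i, Psi.br j), k0), ⟨⟨i, j, Or.inl rfl⟩, by
          show ff ((i, Psi.br j), k0) ∈ B
          simp only at hi
          rw [hi]
          exact hy⟩, hi⟩
      · rintro ⟨x, ⟨-, hx⟩, rfl⟩
        exact hx
    rw [this]
    exact isClosedMap_ff _ (isClosed_sub fun x hx => hx.1)

theorem two_to_one (y : YY) : (ff ⁻¹' {y}).encard ≤ 2 := by
  obtain ⟨x, rfl⟩ := Quotient.mk_surjective y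
  have hsub : (ff ⁻¹' {ff x}) ⊆
      ({rho x, (((rho x).1.1 + 1, (rho x).1.2), k0)} : Set XX) := by
    intro c hc
    have h1 : rho c = rho x := ff_eq.1 hc
    rcases rho_cases c with hc | ⟨i, j, hc, hc'⟩
    · left; rw [← h1, hc]
    · right
      rw [mem_singleton_iff, ← h1, hc', hc]
  exact (encard_le_encard hsub).trans (encard_insert_le _ _ |>.trans (by
    rw [encard_singleton]; norm_num))

theorem separable_D : TopologicalSpace.SeparableSpace (ℕ × Psi) := by
  refine ⟨range (fun q : ℕ × List Bool => (q.1, Psi.pt q.2)), countable_range _, ?_⟩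
  rintro ⟨i, p⟩
  rcases p with s | x
  · exact subset_closure ⟨(i, s), rfl⟩
  · have h1 : Tendsto (fun n => ((i, Psi.pt (pre x n)) : ℕ × Psi)) atTop (𝓝 (i, Psi.br x)) := by
      rw [nhds_prod_eq]
      exact (tendsto_const_pure.mono_right (pure_le_nhds _)).prodMk (tendsto_pt x)
    exact mem_closure_of_tendsto h1 (Eventually.of_forall fun n => ⟨(i, pre x n), rfl⟩)

theorem points_gdelta {E : Type*} [TopologicalSpace E] [T1Space E] (hE : Developable E) (e : E) :
    IsGδ ({e} : Set E) := by
  obtain ⟨G, hG, hb⟩ := hE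
  have h1 : ({e} : Set E) = ⋂ n, star e (G n) := by
    ext z
    rw [mem_singleton_iff, mem_iInter]
    constructor
    · rintro rfl n
      exact mem_of_mem_nhds ((hb z).mem_of_mem trivial)
    · intro hz
      by_contra hne
      have hnb : {z}ᶜ ∈ 𝓝 e := isOpen_compl_singleton.mem_nhds (fun h => hne h.symm)
      obtain ⟨n, -, hn⟩ := (hb e).mem_iff.1 hnb
      exact hn (hz n) rfl
  rw [h1]
  refine IsGδ.iInter fun n => IsOpen.isGδ (isOpen_sUnion fun U hU => (hG n).1 U hU.1)

universe u

/-- **Stronger negative answer to Isiwata's question.** There are a separable locally compact Moore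
space `D`, a compact Hausdorff space `K` and a perfect, at most two-to-one map `f` from `X = D × K`
(whose projection to `D` is perfect) onto a locally compact Hausdorff space `Y` such that

* every continuous map from `Y` to a Hausdorff space all of whose points are `G_δ` has a fibre
  which contains an infinite closed discrete subset of `Y`;
* so `Y` has no perfect map onto a space all of whose points are `G_δ` (in particular onto a first
  countable `T₁` space), and none onto a developable space. -/
theorem result : ∃ (D K Y : Type) (_ : TopologicalSpace D) (_ : TopologicalSpace K)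
    (_ : TopologicalSpace Y) (f : D × K → Y),
    (Developable D ∧ T3Space D ∧ LocallyCompactSpace D ∧ TopologicalSpace.SeparableSpace D) ∧
    (CompactSpace K ∧ T2Space K) ∧ Perfect (Prod.fst : D × K → D) ∧
    Perfect f ∧ (∀ y, (f ⁻¹' {y}).encard ≤ 2) ∧ (T2Space Y ∧ LocallyCompactSpace Y) ∧
    (∀ (E : Type u) [TopologicalSpace E] [T2Space E] (h : Y → E), (∀ e : E, IsGδ ({e} : Set E)) →
      Continuous h → HasBadFibre h) ∧
    ∀ (E : Type u) [TopologicalSpace E] (h : Y → E),
      ((∀ e : E, IsGδ ({e} : Set E)) ∨ Developable E) → ¬ Perfect h := by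
  refine ⟨ℕ × Psi, K, YY, inferInstance, inferInstance, inferInstance, ff,
    ⟨developable_D, inferInstance, inferInstance, separable_D⟩, ⟨inferInstance, inferInstance⟩,
    perfect_gg, perfect_ff, two_to_one, ⟨perfect_ff.t2, perfect_ff.locallyCompact⟩,
    fun E _ _ h hE hc => bad hE h hc, ?_⟩
  intro E _ h hE hp
  have hT2 : T2Space E := (hp.comp perfect_ff).t2
  have hE' : ∀ e : E, IsGδ ({e} : Set E) := by
    rcases hE with hE | hE
    · exact hE
    · exact fun e => points_gdelta hE e
  exact (bad hE' h hp.1).not_perfect hp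

end Pool.Agent.Results.MP_5c431f_gt.CountablePseudocharacter
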